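import Pool.Agent.Y462.AR.Tool
import Pool.Agent.Y462.AR.PPR

/-!
# The dihedral Artin groups with an even label act faithfully

Helper340 (job AR2-EVEN of helper462), after the file for the label 4 of helper759.
-/

set_option autoImplicit false

namespace Pool.Agent.Y340.AR

open Pool.Agent.Y462.PA (Am)
open Pool.Agent.Y462.AR

/-- the first region -/
def PA (l p q : ℝ) : Prop :=
  (0 < p ∧ (q < 0 ∨ (0 ≤ q ∧ l * q < p))) ∨ (p < 0 ∧ (0 < q ∨ (q ≤ 0 ∧ p < l * q)))

/-- the second region -/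
def PB (l p q : ℝ) : Prop := (0 < p ∧ 0 < q ∧ p < l * q) ∨ (p < 0 ∧ q < 0 ∧ l * q < p)

theorem PA_neg {l p q : ℝ} (h : PA l p q) : PA l (-p) (-q) := by
  unfold PA at *
  rcases h with ⟨h1, h2 | ⟨h2, h3⟩⟩ | ⟨h1, h2 | ⟨h2, h3⟩⟩
  · exact Or.inr ⟨by linarith, Or.inl (by linarith)⟩
  · exact Or.inr ⟨by linarith, Or.inr ⟨by linarith, by linarith⟩⟩
  · exact Or.inl ⟨by linarith, Or.inl (by linarith)⟩
  · exact Or.inl ⟨by linarith, Or.inr ⟨by linarith, by linarith⟩⟩

theorem PB_neg {l p q : ℝ} (h : PB l p q) : PB l (-p) (-q) := by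
  unfold PB at *
  rcases h with ⟨h1, h2, h3⟩ | ⟨h1, h2, h3⟩
  · exact Or.inr ⟨by linarith, by linarith, by linarith⟩
  · exact Or.inl ⟨by linarith, by linarith, by linarith⟩

theorem AB_disj {l p q : ℝ} (h : PA l p q) (h' : PB l p q) : False := by
  unfold PA at h
  unfold PB at h'
  rcases h with ⟨h1, h2 | ⟨h2, h3⟩⟩ | ⟨h1, h2 | ⟨h2, h3⟩⟩ <;>
    rcases h' with ⟨h4, h5, h6⟩ | ⟨h4, h5, h6⟩ <;> linarith

theorem stepA {l : ℝ} {n : ℤ} {p q : ℝ} (hn : n ≠ 0) (h : PB l p q) :
    PA l (p + n * (l * q)) q := by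
  unfold PB at h
  unfold PA
  rcases h with ⟨h1, h2, h4⟩ | ⟨h1, h2, h4⟩
  · rcases lt_or_gt_of_ne hn with h3 | h3
    · have h5 : (n : ℝ) ≤ -1 := by exact_mod_cast (by omega : n ≤ -1)
      have h6 : (n : ℝ) * (l * q) ≤ -1 * (l * q) :=
        mul_le_mul_of_nonneg_right h5 (by linarith)
      exact Or.inr ⟨by linarith, Or.inl h2⟩
    · have h5 : (1 : ℝ) ≤ n := by exact_mod_cast (by omega : 1 ≤ n)
      have h6 : 1 * (l * q) ≤ (n : ℝ) * (l * q) :=
        mul_le_mul_of_nonneg_right h5 (by linarith)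
      exact Or.inl ⟨by linarith, Or.inr ⟨h2.le, by linarith⟩⟩
  · rcases lt_or_gt_of_ne hn with h3 | h3
    · have h5 : (n : ℝ) ≤ -1 := by exact_mod_cast (by omega : n ≤ -1)
      have h6 : -1 * (l * q) ≤ (n : ℝ) * (l * q) :=
        mul_le_mul_of_nonpos_right h5 (by linarith)
      exact Or.inl ⟨by linarith, Or.inl h2⟩
    · have h5 : (1 : ℝ) ≤ n := by exact_mod_cast (by omega : 1 ≤ n)
      have h6 : (n : ℝ) * (l * q) ≤ 1 * (l * q) :=
        mul_le_mul_of_nonpos_right h5 (by linarith)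
      exact Or.inr ⟨by linarith, Or.inr ⟨h2.le, by linarith⟩⟩

/-- the powers of `x`, in the half plane -/
theorem stepP {l u0 u1 u2 v1 v2 p q : ℝ} (h0 : 1 ≤ u0) (h1 : 1 ≤ u1) (h2 : 0 ≤ u2)
    (h3 : 1 ≤ v1) (h4 : 0 ≤ v2) (e1 : u1 = l * u0 - v1) (e2 : u0 = l * v1 - v2)
    (e3 : u2 = l * u1 - u0) (hp : 0 < p) (h : q < 0 ∨ (0 ≤ q ∧ l * q < p)) :
    0 < u1 * p - u0 * q ∧ |q| < u0 * p - v1 * q ∧
      u1 * p - u0 * q < l * (u0 * p - v1 * q) := by
  have k0 : 0 < u0 * p := by positivity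
  have k1 : 0 < u1 * p := by positivity
  have k3 : 0 < v1 * p := by positivity
  have hD : l * (u0 * p - v1 * q) - (u1 * p - u0 * q) = v1 * p - v2 * q := by
    linear_combination (-p) * e1 + q * e2
  rcases h with h | ⟨h, h'⟩
  · have k4 : u0 * q < 0 := by nlinarith
    have k5 : v1 * q ≤ 1 * q := by nlinarith
    have k6 : v2 * q ≤ 0 := by nlinarith
    rw [abs_of_neg h]
    refine ⟨by linarith, by linarith, by linarith⟩
  · have k4 : u0 * (l * q) < u0 * p := mul_lt_mul_of_pos_left h' (by linarith)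
    have k5 : u1 * (l * q) < u1 * p := mul_lt_mul_of_pos_left h' (by linarith)
    have k6 : v1 * (l * q) < v1 * p := mul_lt_mul_of_pos_left h' (by linarith)
    have k7 : 1 * q ≤ u1 * q := mul_le_mul_of_nonneg_right h1 h
    have k8 : 0 ≤ u2 * q := mul_nonneg h2 h
    have k9 : 0 ≤ u0 * q := mul_nonneg (by linarith) h
    have m1 : u1 * q = l * u0 * q - v1 * q := by rw [e1]; ring
    have m2 : u0 * q = l * v1 * q - v2 * q := by rw [e2]; ring
    have m3 : u2 * q = l * u1 * q - u0 * q := by rw [e3]; ring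
    rw [abs_of_nonneg h]
    refine ⟨by linarith, by linarith, by linarith⟩

theorem stepB {l u0 u1 u2 v1 v2 p q : ℝ} (h0 : 1 ≤ u0) (h1 : 1 ≤ u1) (h2 : 0 ≤ u2)
    (h3 : 1 ≤ v1) (h4 : 0 ≤ v2) (e1 : u1 = l * u0 - v1) (e2 : u0 = l * v1 - v2)
    (e3 : u2 = l * u1 - u0) (h : PA l p q) :
    PB l (u1 * p - u0 * q) (u0 * p - v1 * q) ∧ |q| < |u0 * p - v1 * q| := by
  unfold PB
  rcases h with ⟨hp, h⟩ | ⟨hp, h⟩
  · obtain ⟨a1, a2, a3⟩ := stepP h0 h1 h2 h3 h4 e1 e2 e3 hp h
    have a4 := abs_nonneg q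
    exact ⟨Or.inl ⟨a1, by linarith, a3⟩, lt_of_lt_of_le a2 (le_abs_self _)⟩
  · have h' : -q < 0 ∨ (0 ≤ -q ∧ l * (-q) < -p) := by
      rcases h with h | ⟨h, h'⟩
      · exact Or.inl (by linarith)
      · exact Or.inr ⟨by linarith, by linarith⟩
    obtain ⟨a1, a2, a3⟩ := stepP h0 h1 h2 h3 h4 e1 e2 e3 (by linarith : 0 < -p) h'
    have a4 := abs_nonneg q
    rw [abs_neg] at a2
    refine ⟨Or.inr ⟨by linarith, by linarith, by linarith⟩, lt_of_lt_of_le a2 ?_⟩
    rw [show u0 * -p - v1 * -q = -(u0 * p - v1 * q) by ring]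
    exact neg_le_abs _

theorem alt_even {G : Type} [Group G] (k : ℕ) (x y : G) : alt (2 * k) x y = (x * y) ^ k := by
  induction k with
  | zero => rw [Nat.mul_zero, alt, pow_zero]
  | succ k ih =>
    rw [show 2 * (k + 1) = 2 * k + 1 + 1 from rfl, alt, alt, ih, ← mul_assoc, ← pow_succ']

theorem core (hU : S_U) (hPOW : S_POW) (k : ℕ) (hk : 2 ≤ k) {G : Type} [Group G] (a c : G)
    (hrel : (a * c) ^ k = (c * a) ^ k)
    (hgen : ∀ S : Subgroup G, a ∈ S → c ∈ S → ∀ g, g ∈ S) (φ : G →* Equiv.Perm (ℝ × ℝ))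
    (hφa' : φ a = tau (lam (2 * k))) (hφc' : φ c = sig (lam (2 * k)))
    (len : G →* Multiplicative ℤ) (hla : len a = Multiplicative.ofAdd 1)
    (hlc : len c = Multiplicative.ofAdd 1) : ∀ g, φ g = 1 → len g = 1 → g = 1 := by
  obtain ⟨uR, u00, u01, u0m, uPos, uShift, uNeg, uLam⟩ := hU (2 * k) (by omega)
  have hl1 : 1 ≤ lam (2 * k) := uLam (by omega)
  obtain ⟨l, hl⟩ : ∃ l, l = lam (2 * k) := ⟨_, rfl⟩
  obtain ⟨hpow, -⟩ := hPOW (2 * k) (by omega)
  rw [← hl] at uR hl1 hpow hφa' hφc'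
  have hφa : ∀ p q, φ a (p, q) = (p + l * q, q) := by
    intro p q
    rw [hφa']
    rfl
  obtain ⟨x, hx⟩ : ∃ x, x = a * c := ⟨_, rfl⟩
  obtain ⟨z, hz⟩ : ∃ z, z = x ^ k := ⟨_, rfl⟩
  have hφx : φ x = tau l * sig l := by
    rw [hx, map_mul, hφa', hφc']
  have hφxi : ∀ (i : ℕ) (p q : ℝ), φ (x ^ i) (p, q) =
      ((-1) ^ i * (U (2 * k) (2 * i + 1) * p - U (2 * k) (2 * i) * q),
        (-1) ^ i * (U (2 * k) (2 * i) * p - U (2 * k) (2 * i - 1) * q)) := by
    intro i p q
    rw [map_pow, hφx]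
    exact hpow i p q
  have hφz : (∀ p q, φ z (p, q) = (p, q)) ∨ (∀ p q, φ z (p, q) = (-p, -q)) := by
    have hA : ∀ p q, φ z (p, q) = ((-1) ^ k * (-p), (-1) ^ k * (-q)) := by
      intro p q
      have s1 : U (2 * k) (2 * (k : ℤ) + 1) = -1 := by
        have := uShift 1
        push_cast at this
        rw [this, u01]
      have s2 : U (2 * k) (2 * (k : ℤ)) = 0 := by
        have := u0m
        push_cast at this
        exact this
      have s3 : U (2 * k) (2 * (k : ℤ) - 1) = 1 := by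
        have := uShift (-1)
        push_cast at this
        rw [show 2 * (k : ℤ) - 1 = 2 * (k : ℤ) + -1 by ring, this, uNeg, u01, neg_neg]
      rw [hz, hφxi, s1, s2, s3]
      refine Prod.ext ?_ ?_
      · show (-1) ^ k * (-1 * p - 0 * q) = (-1) ^ k * (-p)
        ring
      · show (-1) ^ k * (0 * p - 1 * q) = (-1) ^ k * (-q)
        ring
    rcases neg_one_pow_eq_or ℝ k with h | h
    · right
      intro p q
      rw [hA, h, one_mul, one_mul]
    · left
      intro p q
      rw [hA, h, neg_one_mul, neg_one_mul, neg_neg, neg_neg]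
  have hφai : ∀ p q, φ a⁻¹ (p, q) = (p - l * q, q) := by
    intro p q
    rw [map_inv, Equiv.Perm.inv_eq_iff_eq, hφa]
    refine Prod.ext ?_ rfl
    show p = p - l * q + l * q
    ring
  have hφan : ∀ (n : ℤ) (p q : ℝ), φ (a ^ n) (p, q) = (p + n * (l * q), q) := by
    intro n
    induction n using Int.induction_on with
    | zero =>
      intro p q
      rw [zpow_zero, map_one, Equiv.Perm.one_apply, Int.cast_zero, zero_mul, add_zero]
    | succ n ih =>
      intro p q
      rw [zpow_add_one, map_mul, Equiv.Perm.mul_apply, hφa, ih]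
      refine Prod.ext ?_ rfl
      show p + l * q + ((n : ℤ) : ℝ) * (l * q) = p + (((n : ℤ) + 1 : ℤ) : ℝ) * (l * q)
      push_cast
      ring
    | pred n ih =>
      intro p q
      rw [zpow_sub_one, map_mul, Equiv.Perm.mul_apply, hφai, ih]
      refine Prod.ext ?_ rfl
      show p - l * q + ((-(n : ℤ) : ℤ) : ℝ) * (l * q) = p + ((-(n : ℤ) - 1 : ℤ) : ℝ) * (l * q)
      push_cast
      ring
  have hφzn : ∀ j : ℤ, (∀ p q, φ (z ^ j) (p, q) = (p, q)) ∨
      (∀ p q, φ (z ^ j) (p, q) = (-p, -q)) := by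
    rcases hφz with hφz | hφz
    · have hφzi : ∀ p q, φ z⁻¹ (p, q) = (p, q) := by
        intro p q
        rw [map_inv, Equiv.Perm.inv_eq_iff_eq, hφz]
      intro j
      left
      induction j using Int.induction_on with
      | zero =>
        intro p q
        rw [zpow_zero, map_one, Equiv.Perm.one_apply]
      | succ n ih =>
        intro p q
        rw [zpow_add_one, map_mul, Equiv.Perm.mul_apply, hφz, ih]
      | pred n ih =>
        intro p q
        rw [zpow_sub_one, map_mul, Equiv.Perm.mul_apply, hφzi, ih]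
    · have hφzi : ∀ p q, φ z⁻¹ (p, q) = (-p, -q) := by
        intro p q
        rw [map_inv, Equiv.Perm.inv_eq_iff_eq, hφz, neg_neg, neg_neg]
      intro j
      induction j using Int.induction_on with
      | zero =>
        left
        intro p q
        rw [zpow_zero, map_one, Equiv.Perm.one_apply]
      | succ n ih =>
        rcases ih with ih | ih
        · right
          intro p q
          rw [zpow_add_one, map_mul, Equiv.Perm.mul_apply, hφz, ih]
        · left
          intro p q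
          rw [zpow_add_one, map_mul, Equiv.Perm.mul_apply, hφz, ih, neg_neg, neg_neg]
      | pred n ih =>
        rcases ih with ih | ih
        · right
          intro p q
          rw [zpow_sub_one, map_mul, Equiv.Perm.mul_apply, hφzi, ih]
        · left
          intro p q
          rw [zpow_sub_one, map_mul, Equiv.Perm.mul_apply, hφzi, ih, neg_neg, neg_neg]
  have hcomm : Commute a z := by
    have h1 : ∀ n : ℕ, a * (c * a) ^ n = (a * c) ^ n * a := by
      intro n
      induction n with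
      | zero => simp
      | succ n ih =>
        rw [pow_succ, ← mul_assoc, ih, pow_succ]
        group
    show a * z = z * a
    rw [hz, hx]
    calc a * (a * c) ^ k = a * (c * a) ^ k := by rw [hrel]
      _ = (a * c) ^ k * a := h1 k
  have hxk : ∀ j : ℤ, x ^ ((k : ℤ) * j) = z ^ j := by
    intro j
    rw [zpow_mul, zpow_natCast, hz]
  let α : Multiplicative ℤ →* Multiplicative ℤ × Multiplicative ℤ := MonoidHom.inr _ _
  let β : Multiplicative ℤ →* Multiplicative ℤ := powMonoidHom k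
  let θA : Multiplicative ℤ × Multiplicative ℤ →* G :=
    MonoidHom.noncommCoprod (zpowersHom G a) (zpowersHom G z) (fun m n => by
      rw [zpowersHom_apply, zpowersHom_apply]
      exact hcomm.zpow_zpow _ _)
  let θB : Multiplicative ℤ →* G := zpowersHom G x
  have hθA : ∀ n j : Multiplicative ℤ, θA (n, j) =
      a ^ (Multiplicative.toAdd n) * z ^ (Multiplicative.toAdd j) := fun n j => rfl
  have hθB : ∀ n : Multiplicative ℤ, θB n = x ^ (Multiplicative.toAdd n) := fun n => rfl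
  have hα : ∀ j, α j = (1, j) := fun j => rfl
  have hβ : ∀ j, β j = j ^ k := fun j => rfl
  have hαz : ∀ j, θA (α j) = z ^ (Multiplicative.toAdd j) := by
    intro j
    rw [hα, hθA, toAdd_one, zpow_zero, one_mul]
  have hcompat : ∀ j, θA (α j) = θB (β j) := by
    intro j
    rw [hαz, hθB, hβ, toAdd_pow, nsmul_eq_mul, ← hxk]
  obtain ⟨θ, hθ⟩ : ∃ θ, θ = Am.lift α β θA θB hcompat := ⟨_, rfl⟩
  have hθl : ∀ y, θ (Am.inl α β y) = θA y := by
    intro y
    rw [hθ, Am.lift_inl]
  have hθr : ∀ y, θ (Am.inr α β y) = θB y := by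
    intro y
    rw [hθ, Am.lift_inr]
  have hsurj : ∀ g, ∃ h, θ h = g := by
    have ha : a ∈ θ.range := ⟨Am.inl α β (Multiplicative.ofAdd 1, 1), by
      rw [hθl, hθA, toAdd_one, toAdd_ofAdd, zpow_one, zpow_zero, mul_one]⟩
    have hxr : x ∈ θ.range := ⟨Am.inr α β (Multiplicative.ofAdd 1), by
      rw [hθr, hθB, toAdd_ofAdd, zpow_one]⟩
    have hc : c ∈ θ.range := by
      have h1 : c = a⁻¹ * x := by rw [hx, inv_mul_cancel_left]
      rw [h1]
      exact mul_mem (inv_mem ha) hxr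
    intro g
    exact hgen θ.range ha hc g
  obtain ⟨F, hF⟩ : ∃ F, F = (actR φ len).comp θ := ⟨_, rfl⟩
  have hFv : ∀ h v, F h v = (φ (θ h) v.1, v.2 + Multiplicative.toAdd (len (θ h))) := by
    intro h v
    rw [hF]
    rfl
  have hlz : len z = Multiplicative.ofAdd (2 * (k : ℤ)) := by
    rw [hz, hx, map_pow, map_mul, hla, hlc, ← ofAdd_add, ← ofAdd_nsmul]
    congr 1
    rw [nsmul_eq_mul]
    ring
  have hinj : Function.Injective F := by
    refine PPR.t_ppr (Multiplicative ℤ) (Multiplicative ℤ × Multiplicative ℤ)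
      (Multiplicative ℤ) ((ℝ × ℝ) × ℤ) α β F {v | PA l v.1.1 v.1.2} {v | PB l v.1.1 v.1.2}
      (fun v => |v.1.2|) ?_ ⟨((1, 0), 0), ?_⟩ ⟨((1, 2), 0), ?_⟩
      ?_ ?_ ?_ ?_ ?_
    · rw [Set.disjoint_left]
      intro v h1 h2
      exact AB_disj h1 h2
    · show PA l 1 0
      exact Or.inl ⟨one_pos, Or.inr ⟨le_rfl, by rw [mul_zero]; exact one_pos⟩⟩
    · show PB l 1 2
      exact Or.inl ⟨one_pos, two_pos, by linarith⟩
    · rintro ⟨n, j⟩ hnk ⟨⟨p, q⟩, r⟩ hv
      have hv' : PB l p q := hv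
      have hn : Multiplicative.toAdd n ≠ 0 := by
        intro h0
        apply hnk
        refine ⟨j, ?_⟩
        rw [hα]
        refine Prod.ext ?_ rfl
        exact (toAdd_eq_zero.1 h0).symm
      rw [hFv, hθl, hθA, map_mul, Equiv.Perm.mul_apply]
      rcases hφzn (Multiplicative.toAdd j) with h1 | h1
      · rw [h1, hφan]
        exact ⟨stepA hn hv', le_rfl⟩
      · rw [h1, hφan]
        refine ⟨stepA hn (PB_neg hv'), ?_⟩
        show |q| ≤ |-q|
        rw [abs_neg]
    · rintro n hn ⟨⟨p, q⟩, r⟩ hv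
      have hv' : PA l p q := hv
      have hk0 : (k : ℤ) ≠ 0 := by omega
      obtain ⟨i, hi⟩ : ∃ i : ℕ, (i : ℤ) = Multiplicative.toAdd n % (k : ℤ) :=
        ⟨(Multiplicative.toAdd n % (k : ℤ)).toNat, Int.toNat_of_nonneg (Int.emod_nonneg _ hk0)⟩
      obtain ⟨j, hj⟩ : ∃ j : ℤ, j = Multiplicative.toAdd n / (k : ℤ) := ⟨_, rfl⟩
      have hnj : Multiplicative.toAdd n = (k : ℤ) * j + i := by
        rw [hi, hj]
        exact (Int.mul_ediv_add_emod _ _).symm
      have hik : (i : ℤ) < k := by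
        rw [hi]
        exact Int.emod_lt_of_pos _ (by omega)
      have hi0 : 0 < i := by
        rcases Nat.eq_zero_or_pos i with h0 | h0
        · exfalso
          apply hn
          refine ⟨Multiplicative.ofAdd j, ?_⟩
          rw [hβ]
          apply Multiplicative.toAdd.injective
          rw [toAdd_pow, toAdd_ofAdd, hnj, nsmul_eq_mul, h0]
          simp
        · exact h0
      have b1 : 1 ≤ U (2 * k) (2 * (i : ℤ)) := uPos _ (by omega) (by push_cast; omega)
      have b2 : 1 ≤ U (2 * k) (2 * (i : ℤ) + 1) := uPos _ (by omega) (by push_cast; omega)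
      have b3 : 1 ≤ U (2 * k) (2 * (i : ℤ) - 1) := uPos _ (by omega) (by push_cast; omega)
      have b4 : 0 ≤ U (2 * k) (2 * (i : ℤ) + 2) := by
        rcases lt_or_ge (i + 1 : ℤ) k with h | h
        · have := uPos (2 * (i : ℤ) + 2) (by omega) (by push_cast; omega)
          linarith
        · have h' : 2 * (i : ℤ) + 2 = ((2 * k : ℕ) : ℤ) := by push_cast; omega
          rw [h', u0m]
      have b5 : 0 ≤ U (2 * k) (2 * (i : ℤ) - 2) := by
        rcases Nat.lt_or_ge 1 i with h | h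
        · have := uPos (2 * (i : ℤ) - 2) (by omega) (by push_cast; omega)
          linarith
        · have h' : 2 * (i : ℤ) - 2 = 0 := by omega
          rw [h', u00]
      have e1 : U (2 * k) (2 * (i : ℤ) + 1) =
          l * U (2 * k) (2 * (i : ℤ)) - U (2 * k) (2 * (i : ℤ) - 1) := uR _
      have e2 : U (2 * k) (2 * (i : ℤ)) =
          l * U (2 * k) (2 * (i : ℤ) - 1) - U (2 * k) (2 * (i : ℤ) - 2) := by
        have := uR (2 * (i : ℤ) - 1)
        rw [show 2 * (i : ℤ) - 1 + 1 = 2 * (i : ℤ) by ring,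
          show 2 * (i : ℤ) - 1 - 1 = 2 * (i : ℤ) - 2 by ring] at this
        exact this
      have e3 : U (2 * k) (2 * (i : ℤ) + 2) =
          l * U (2 * k) (2 * (i : ℤ) + 1) - U (2 * k) (2 * (i : ℤ)) := by
        have := uR (2 * (i : ℤ) + 1)
        rw [show 2 * (i : ℤ) + 1 + 1 = 2 * (i : ℤ) + 2 by ring,
          show 2 * (i : ℤ) + 1 - 1 = 2 * (i : ℤ) by ring] at this
        exact this
      obtain ⟨f1, f2⟩ := stepB b1 b2 b4 b3 b5 e1 e2 e3 hv'
      obtain ⟨P, hP⟩ : ∃ P, P = U (2 * k) (2 * (i : ℤ) + 1) * p - U (2 * k) (2 * (i : ℤ)) * q :=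
        ⟨_, rfl⟩
      obtain ⟨Q, hQ⟩ : ∃ Q, Q = U (2 * k) (2 * (i : ℤ)) * p - U (2 * k) (2 * (i : ℤ) - 1) * q :=
        ⟨_, rfl⟩
      have hxi := hφxi i p q
      rw [← hP, ← hQ] at hxi f1
      rw [← hQ] at f2
      rw [hFv, hθr, hθB, hnj, zpow_add, hxk, zpow_natCast, map_mul, Equiv.Perm.mul_apply, hxi]
      rcases neg_one_pow_eq_or ℝ i with h | h
      · rw [h, one_mul, one_mul]
        rcases hφzn j with h1 | h1
        · rw [h1]
          exact ⟨f1, f2⟩
        · rw [h1]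
          refine ⟨PB_neg f1, ?_⟩
          show |q| < |-Q|
          rw [abs_neg]
          exact f2
      · rw [h, neg_one_mul, neg_one_mul]
        rcases hφzn j with h1 | h1
        · rw [h1]
          refine ⟨PB_neg f1, ?_⟩
          show |q| < |-Q|
          rw [abs_neg]
          exact f2
        · rw [h1, neg_neg, neg_neg]
          exact ⟨f1, f2⟩
    · rintro j ⟨⟨p, q⟩, r⟩ hv
      have hv' : PA l p q := hv
      rw [hFv, hθl, hαz]
      rcases hφzn (Multiplicative.toAdd j) with h1 | h1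
      · rw [h1]
        exact ⟨hv', rfl⟩
      · rw [h1]
        refine ⟨PA_neg hv', ?_⟩
        show |-q| = |q|
        rw [abs_neg]
    · rintro j ⟨⟨p, q⟩, r⟩ hv
      have hv' : PB l p q := hv
      rw [hFv, hθl, hαz]
      rcases hφzn (Multiplicative.toAdd j) with h1 | h1
      · rw [h1]
        exact ⟨hv', rfl⟩
      · rw [h1]
        refine ⟨PB_neg hv', ?_⟩
        show |-q| = |q|
        rw [abs_neg]
    · intro j hj
      have h1 := hFv (Am.inl α β (α j)) ((0, 0), 0)
      rw [hj, Equiv.Perm.one_apply, hθl, hαz] at h1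
      have h2 : (0 : ℤ) = 0 + Multiplicative.toAdd (len (z ^ (Multiplicative.toAdd j))) :=
        congrArg Prod.snd h1
      rw [map_zpow, hlz, toAdd_zpow, toAdd_ofAdd] at h2
      apply toAdd_eq_zero.1
      simp only [smul_eq_mul, zero_add] at h2
      have h3 : Multiplicative.toAdd j * (2 * (k : ℤ)) = 0 := h2.symm
      rcases mul_eq_zero.1 h3 with h4 | h4
      · exact h4
      · omega
  intro g hg1 hg2
  obtain ⟨h, rfl⟩ := hsurj g
  have h1 : F h = F 1 := by
    rw [map_one]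
    apply Equiv.ext
    intro v
    rw [hFv, hg1, hg2, toAdd_one, add_zero]
    rfl
  rw [hinj h1, map_one]

/-- **AR2-EVEN** the dihedral Artin groups with an even label -/
theorem t_even (hU : S_U) (hPOW : S_POW) : ∀ k, 2 ≤ k → S_DG (2 * k) := by
  intro k hk b
  have hST : alt (2 * k) (tau (lam (2 * k))) (sig (lam (2 * k))) =
      alt (2 * k) (sig (lam (2 * k))) (tau (lam (2 * k))) := (hPOW (2 * k) (by omega)).2
  obtain ⟨φ, hφ⟩ := t_lift Bool (Equiv.Perm (ℝ × ℝ)) (fun _ _ => 2 * k)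
    (fun c => if c = b then tau (lam (2 * k)) else sig (lam (2 * k))) (by
      intro s t _
      by_cases h1 : s = b <;> by_cases h2 : t = b
      · simp only [h1, h2]
      · simp only [if_pos h1, if_neg h2]
        exact hST
      · simp only [if_neg h1, if_pos h2]
        exact hST.symm
      · simp only [if_neg h1, if_neg h2])
  have hb : (!b) ≠ b := by
    cases b <;> decide
  have ha : φ (gen _ b) = tau (lam (2 * k)) := by
    rw [hφ, if_pos rfl]
  have hc : φ (gen _ (!b)) = sig (lam (2 * k)) := by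
    rw [hφ, if_neg hb]
  refine ⟨φ, ha, hc, ?_⟩
  intro len hlen
  refine core hU hPOW k hk (gen _ b) (gen _ (!b)) ?_ ?_ φ ha hc len (hlen _) (hlen _)
  · have h1 := t_rel Bool (fun _ _ => 2 * k) b (!b) (by omega)
    rw [alt_even, alt_even] at h1
    exact h1
  · intro S' h1 h2 g
    refine mem_of_gen S' (fun s => ?_) g
    rcases Bool.eq_or_eq_not s b with h | h
    · rw [h]
      exact h1
    · rw [h]
      exact h2

end Pool.Agent.Y340.AR
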